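import Mathlib
import Pool.Agent.H64.Flow1D
open MeasureTheory Set Filter Topology Real
open Pool.Agent.H64.Flow1D
open scoped ENNReal

namespace Pool.Agent.Results.MP_31abd3_an.NonMonotone

/-- The polar of `f`: the infimum of `exp (-⟨x, y⟩) / f x` over all `x` with `f x > 0`. -/
noncomputable def polar {n : ℕ} (f : (Fin n → ℝ) → ℝ) (y : Fin n → ℝ) : ℝ :=
  ⨅ x : {x : Fin n → ℝ // 0 < f x}, Real.exp (-∑ i, x.1 i * y i) / f x.1

/-- The fundamental solution (Mehler kernel) of the Fokker-Planck equation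
`∂ₜ f = Δ f + div (x f)`. -/
noncomputable def mehler {n : ℕ} (t : ℝ) (x u : Fin n → ℝ) : ℝ :=
  (2 * π * (1 - Real.exp (-2 * t))) ^ (-(n : ℝ) / 2) *
    Real.exp (-(∑ i, (x i - Real.exp (-t) * u i) ^ 2) / (2 * (1 - Real.exp (-2 * t))))

/-- The Fokker-Planck evolution `f_t` of `f`. -/
noncomputable def flow {n : ℕ} (t : ℝ) (f : (Fin n → ℝ) → ℝ) (x : Fin n → ℝ) : ℝ :=
  if t = 0 then f x else ∫ u, f u * mehler t x u

/-- The functional volume product, with values in `[0, ∞]`. -/
noncomputable def volProd {n : ℕ} (f : (Fin n → ℝ) → ℝ) : ℝ≥0∞ :=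
  (∫⁻ x, ENNReal.ofReal (f x)) * ∫⁻ y, ENNReal.ofReal (polar f y)

/-- `g` has positive finite integral, finite first moments, and barycenter `0`. -/
structure Centred {n : ℕ} (g : (Fin n → ℝ) → ℝ) : Prop where
  integrable : Integrable g
  pos : 0 < ∫ x, g x
  moment : ∀ i, Integrable fun x => x i * g x
  bary : ∀ i, ∫ x, x i * g x = 0

/-! ### product functions -/

/-- the family of one-dimensional factors -/
noncomputable def fam {m : ℕ} (a b : ℝ → ℝ) (i : Fin (m + 1)) : ℝ → ℝ := if i = 0 then a else b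

/-- the product function -/
noncomputable def prodFun {m : ℕ} (a b : ℝ → ℝ) (x : Fin (m + 1) → ℝ) : ℝ :=
  ∏ i, fam a b i (x i)

lemma fam_forall {m : ℕ} {a b : ℝ → ℝ} {P : (ℝ → ℝ) → Prop} (ha : P a) (hb : P b)
    (i : Fin (m + 1)) : P (fam a b i) := by
  unfold fam; split_ifs
  · exact ha
  · exact hb

lemma fam_forall₂ {m : ℕ} {a b a' b' : ℝ → ℝ} {P : (ℝ → ℝ) → (ℝ → ℝ) → Prop} (ha : P a a')
    (hb : P b b') (i : Fin (m + 1)) : P (fam a b i) (fam a' b' i) := by
  unfold fam; split_ifs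
  · exact ha
  · exact hb

lemma prodFun_eq {m : ℕ} (a b : ℝ → ℝ) (x : Fin (m + 1) → ℝ) :
    prodFun a b x = a (x 0) * ∏ i : Fin m, b (x i.succ) := by
  unfold prodFun fam
  rw [Fin.prod_univ_succ]
  simp [Fin.succ_ne_zero]

lemma prodFun_nonneg {m : ℕ} {a b : ℝ → ℝ} (ha : ∀ x, 0 ≤ a x) (hb : ∀ x, 0 ≤ b x)
    (x : Fin (m + 1) → ℝ) : 0 ≤ prodFun a b x :=
  Finset.prod_nonneg fun i _ => fam_forall (P := fun g => ∀ x, 0 ≤ g x) ha hb i _

lemma measurable_prodFun {m : ℕ} {a b : ℝ → ℝ} (ha : Measurable a) (hb : Measurable b) :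
    Measurable (prodFun (m := m) a b) := by
  unfold prodFun
  refine Finset.measurable_prod _ fun i _ => ?_
  exact (fam_forall (P := Measurable) ha hb i).comp (measurable_pi_apply i)

lemma integrable_prodFun {m : ℕ} {a b : ℝ → ℝ} (ha : Integrable a) (hb : Integrable b) :
    Integrable (prodFun (m := m) a b) := by
  have h : ∀ i : Fin (m + 1), Integrable (fam a b i) :=
    fam_forall (P := fun g => Integrable g) ha hb
  exact Integrable.fintype_prod (μ := fun _ => volume) h

lemma int_prodFun {m : ℕ} (a b : ℝ → ℝ) :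
    ∫ x, prodFun (m := m) a b x = (∫ x, a x) * (∫ x, b x) ^ m := by
  unfold prodFun
  rw [integral_fintype_prod_volume_eq_prod, Fin.prod_univ_succ]
  simp [fam, Fin.succ_ne_zero]

lemma centred_prodFun {m : ℕ} {a b : ℝ → ℝ} (ha : Integrable a) (hb : Integrable b)
    (ha0 : 0 < ∫ x, a x) (hb0 : 0 < ∫ x, b x) (ha1 : Integrable fun x => x * a x)
    (hb1 : Integrable fun x => x * b x) (ha2 : ∫ x, x * a x = 0) (hb2 : ∫ x, x * b x = 0) :
    Centred (prodFun (m := m) a b) := by
  have key : ∀ i : Fin (m + 1), (fun x : Fin (m + 1) → ℝ => x i * prodFun a b x) =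
      fun x => ∏ j, (fun y => (if j = i then y else 1) * fam a b j y) (x j) := by
    intro i
    ext x
    simp only
    rw [Finset.prod_mul_distrib, Finset.prod_ite_eq' Finset.univ i (fun j => x j)]
    simp [prodFun]
  have h0 : ∀ i : Fin (m + 1), Integrable (fam a b i) :=
    fam_forall (P := fun g => Integrable g) ha hb
  have h1 : ∀ i : Fin (m + 1), Integrable fun y => y * fam a b i y :=
    fam_forall (P := fun g => Integrable fun y => y * g y) ha1 hb1
  have h2 : ∀ i : Fin (m + 1), ∫ y, y * fam a b i y = 0 :=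
    fam_forall (P := fun g => ∫ y, y * g y = 0) ha2 hb2
  refine ⟨integrable_prodFun ha hb, ?_, fun i => ?_, fun i => ?_⟩
  · rw [int_prodFun]; positivity
  · rw [key i]
    refine Integrable.fintype_prod (μ := fun _ => volume)
      (f := fun j y => (if j = i then y else 1) * fam a b j y) fun j => ?_
    by_cases hj : j = i
    · simp only [hj, if_true]; exact h1 i
    · simp only [hj, if_false, one_mul]; exact h0 j
  · rw [key i, integral_fintype_prod_volume_eq_prod
      (fun j y => (if j = i then y else 1) * fam a b j y)]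
    refine Finset.prod_eq_zero (Finset.mem_univ i) ?_
    simp only [if_true]
    exact h2 i

/-! ### one-dimensional facts -/

/-- the Gaussian factor -/
noncomputable def gau (x : ℝ) : ℝ := Real.exp (-x ^ 2 / 2)

lemma gau_pos (x : ℝ) : 0 < gau x := Real.exp_pos _

lemma integrable_gau : Integrable gau := by
  have := integrable_gauss_b one_pos
  refine this.congr (Eventually.of_forall fun x => ?_)
  simp only [gau]; congr 1; ring

lemma int_gau_pos : 0 < ∫ x, gau x := by
  rw [integral_pos_iff_support_of_nonneg (fun x => (gau_pos x).le) integrable_gau]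
  have : Function.support gau = univ := by
    ext x; simp [(gau_pos x).ne']
  rw [this]; simp

lemma int_odd {g : ℝ → ℝ} (hg : ∀ x, g (-x) = g x) : ∫ x, x * g x = 0 := by
  have h := integral_neg_eq_self (fun x : ℝ => x * g x) volume
  simp only [hg, neg_mul, integral_neg] at h
  linarith

lemma integrable_of_bound {g : ℝ → ℝ} (hg : Continuous g) {C : ℝ}
    (h : ∀ x, |g x| * (1 + x ^ 2) ≤ C) : Integrable g := by
  refine Integrable.mono' (integrable_inv_one_add_sq.const_mul C) hg.aestronglyMeasurable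
    (Eventually.of_forall fun x => ?_)
  rw [Real.norm_eq_abs, ← div_eq_mul_inv, le_div_iff₀ (by positivity)]
  exact h x

lemma integrable_mul_gau : Integrable fun x => x * gau x := by
  have h := integrable_mul_exp_neg_mul_sq (b := 1 / 2) (by norm_num)
  refine h.congr (Eventually.of_forall fun x => ?_)
  simp only [gau]; congr 2; ring

/-- the exact polar of the one-dimensional example -/
noncomputable def lap (L y : ℝ) : ℝ := Real.exp (-(L * |y|))

lemma continuous_lap (L : ℝ) : Continuous (lap L) := by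
  unfold lap; fun_prop

lemma lap_bound {L : ℝ} (hL : 0 < L) (y : ℝ) :
    lap L y * (1 + (L * |y|) + (L * |y|) ^ 2 / 2 + (L * |y|) ^ 3 / 6) ≤ 1 := by
  have hz : 0 ≤ L * |y| := by positivity
  have h := Real.sum_le_exp_of_nonneg hz 4
  simp only [Finset.sum_range_succ, Finset.sum_range_zero, Nat.factorial] at h
  norm_num at h
  unfold lap
  rw [Real.exp_neg, inv_mul_le_iff₀ (Real.exp_pos _), mul_one]
  exact h

lemma integrable_lap {L : ℝ} (hL : 0 < L) : Integrable (lap L) := by
  refine integrable_of_bound (continuous_lap L) (C := 1 + 2 / L ^ 2) fun y => ?_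
  have hl : 0 < lap L y := Real.exp_pos _
  rw [abs_of_pos hl]
  have h := lap_bound hL y
  have hz : 0 ≤ L * |y| := by positivity
  have e1 : y ^ 2 = (L * |y|) ^ 2 / L ^ 2 := by
    rw [mul_pow, sq_abs]; field_simp
  rw [e1]
  have h2 : 1 + (L * |y|) ^ 2 / L ^ 2 ≤ (1 + 2 / L ^ 2) *
      (1 + (L * |y|) + (L * |y|) ^ 2 / 2 + (L * |y|) ^ 3 / 6) := by
    have h3 : 0 ≤ 2 / L ^ 2 := by positivity
    have e2 : (L * |y|) ^ 2 / L ^ 2 = 2 / L ^ 2 * ((L * |y|) ^ 2 / 2) := by ring
    rw [e2]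
    have h4 : 0 ≤ (L * |y|) ^ 2 / 2 := by positivity
    have h5 : 0 ≤ (L * |y|) ^ 3 / 6 := by positivity
    nlinarith [mul_nonneg h3 hz, mul_nonneg h3 h5]
  calc lap L y * (1 + (L * |y|) ^ 2 / L ^ 2) ≤ lap L y * ((1 + 2 / L ^ 2) *
      (1 + (L * |y|) + (L * |y|) ^ 2 / 2 + (L * |y|) ^ 3 / 6)) :=
        mul_le_mul_of_nonneg_left h2 hl.le
    _ = (1 + 2 / L ^ 2) * (lap L y * (1 + (L * |y|) + (L * |y|) ^ 2 / 2 + (L * |y|) ^ 3 / 6)) := by
        ring
    _ ≤ (1 + 2 / L ^ 2) * 1 := mul_le_mul_of_nonneg_left h (by positivity)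
    _ = 1 + 2 / L ^ 2 := mul_one _

lemma integrable_mul_lap {L : ℝ} (hL : 0 < L) : Integrable fun y => y * lap L y := by
  refine integrable_of_bound (continuous_id.mul (continuous_lap L)) (C := 1 / L + 6 / L ^ 3)
    fun y => ?_
  have hl : 0 < lap L y := Real.exp_pos _
  change |y * lap L y| * (1 + y ^ 2) ≤ 1 / L + 6 / L ^ 3
  rw [abs_mul, abs_of_pos hl]
  have h := lap_bound hL y
  have hz : 0 ≤ L * |y| := by positivity
  have e1 : |y| * (1 + y ^ 2) = 1 / L * (L * |y|) + 6 / L ^ 3 * ((L * |y|) ^ 3 / 6) := by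
    have : y ^ 2 = |y| ^ 2 := (sq_abs y).symm
    rw [this]; field_simp
  have h2 : |y| * (1 + y ^ 2) ≤ (1 / L + 6 / L ^ 3) *
      (1 + (L * |y|) + (L * |y|) ^ 2 / 2 + (L * |y|) ^ 3 / 6) := by
    rw [e1]
    have h3 : 0 ≤ 1 / L := by positivity
    have h3' : 0 ≤ 6 / L ^ 3 := by positivity
    have h4 : 0 ≤ (L * |y|) ^ 2 / 2 := by positivity
    have h5 : 0 ≤ (L * |y|) ^ 3 / 6 := by positivity
    nlinarith [mul_nonneg h3 hz, mul_nonneg h3 h5, mul_nonneg h3 h4, mul_nonneg h3' hz,
      mul_nonneg h3' h4]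
  calc |y| * lap L y * (1 + y ^ 2) = lap L y * (|y| * (1 + y ^ 2)) := by ring
    _ ≤ lap L y * ((1 / L + 6 / L ^ 3) *
      (1 + (L * |y|) + (L * |y|) ^ 2 / 2 + (L * |y|) ^ 3 / 6)) :=
        mul_le_mul_of_nonneg_left h2 hl.le
    _ = (1 / L + 6 / L ^ 3) *
      (lap L y * (1 + (L * |y|) + (L * |y|) ^ 2 / 2 + (L * |y|) ^ 3 / 6)) := by ring
    _ ≤ (1 / L + 6 / L ^ 3) * 1 := mul_le_mul_of_nonneg_left h (by positivity)
    _ = 1 / L + 6 / L ^ 3 := mul_one _

lemma int_lap_pos {L : ℝ} (hL : 0 < L) : 0 < ∫ y, lap L y := by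
  have h0 : 0 ≤ lap L := fun y => (Real.exp_pos _).le
  rw [integral_pos_iff_support_of_nonneg h0 (integrable_lap hL)]
  have : Function.support (lap L) = univ := by
    ext x; simp [lap, Real.exp_ne_zero]
  rw [this]; simp


/-! ### the flow of a product function -/

lemma rpow_sqrt (n : ℕ) {c : ℝ} (hc : 0 ≤ c) : c ^ (-(n : ℝ) / 2) = ((√c)⁻¹) ^ n := by
  rw [Real.sqrt_eq_rpow, ← Real.rpow_neg hc, ← Real.rpow_natCast, ← Real.rpow_mul hc]
  congr 1; ring

lemma mehler_eq {n : ℕ} {t : ℝ} (ht : 0 < t) (x u : Fin n → ℝ) :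
    mehler t x u = ∏ i, K (Real.exp (-t)) (1 - Real.exp (-2 * t)) (x i) (u i) := by
  have hs : 0 < 1 - Real.exp (-2 * t) := by
    have : Real.exp (-2 * t) < 1 := by rw [Real.exp_lt_one_iff]; linarith
    linarith
  unfold mehler K
  rw [rpow_sqrt n (by positivity), Finset.prod_mul_distrib, Finset.prod_const, ← Real.exp_sum,
    ← Finset.sum_div, Finset.sum_neg_distrib]
  simp

lemma flow_prodFun {m : ℕ} {t : ℝ} (ht : 0 < t) (a b : ℝ → ℝ) (x : Fin (m + 1) → ℝ) :
    flow t (prodFun a b) x = prodFun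
      (fun x => ∫ u, a u * K (Real.exp (-t)) (1 - Real.exp (-2 * t)) x u)
      (fun x => ∫ u, b u * K (Real.exp (-t)) (1 - Real.exp (-2 * t)) x u) x := by
  unfold flow
  rw [if_neg ht.ne']
  have : ∀ u : Fin (m + 1) → ℝ, prodFun a b u * mehler t x u =
      ∏ i, (fun i v => fam a b i v * K (Real.exp (-t)) (1 - Real.exp (-2 * t)) (x i) v) i (u i) := by
    intro u
    rw [mehler_eq ht]
    unfold prodFun
    rw [← Finset.prod_mul_distrib]
  simp_rw [this]
  rw [integral_fintype_prod_volume_eq_prod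
    (fun i v => fam a b i v * K (Real.exp (-t)) (1 - Real.exp (-2 * t)) (x i) v)]
  unfold prodFun
  refine Finset.prod_congr rfl fun i _ => ?_
  unfold fam
  split_ifs <;> rfl

lemma flow_example {m : ℕ} {t : ℝ} (ht : 0 < t) (L p d R : ℝ) :
    flow t (prodFun (m := m) (f1 L p d R) gau) =
      prodFun (F (Real.exp (-t)) (1 - Real.exp (-2 * t)) L p d R) gau := by
  have hs : 0 < 1 - Real.exp (-2 * t) := by
    have : Real.exp (-2 * t) < 1 := by rw [Real.exp_lt_one_iff]; linarith
    linarith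
  have hes : 1 - Real.exp (-2 * t) + Real.exp (-t) ^ 2 = 1 := by
    rw [← Real.exp_nat_mul]; push_cast; ring_nf
  ext x
  rw [flow_prodFun ht]
  congr 1
  ext y
  exact gauss_flow hs hes y

/-! ### the polar of a product function -/

lemma bdd {n : ℕ} (f : (Fin n → ℝ) → ℝ) (y : Fin n → ℝ) :
    BddBelow (range fun x : {x : Fin n → ℝ // 0 < f x} =>
      Real.exp (-∑ i, x.1 i * y i) / f x.1) := by
  refine ⟨0, ?_⟩
  rintro _ ⟨x, rfl⟩
  exact div_nonneg (Real.exp_pos _).le x.2.le

lemma quot_prod {m : ℕ} (a b : ℝ → ℝ) (x y : Fin (m + 1) → ℝ) :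
    Real.exp (-∑ i, x i * y i) / prodFun a b x =
      ∏ i, (Real.exp (-(x i * y i)) / fam a b i (x i)) := by
  unfold prodFun
  rw [Finset.prod_div_distrib, ← Real.exp_sum, Finset.sum_neg_distrib]

lemma le_polar_prod {m : ℕ} {a b la lb : ℝ → ℝ} (ha : ∀ x, 0 ≤ a x) (hb : ∀ x, 0 ≤ b x)
    (hna : ∃ x, 0 < a x) (hnb : ∃ x, 0 < b x) (hla : ∀ y, 0 ≤ la y) (hlb : ∀ y, 0 ≤ lb y)
    (h1 : ∀ x y, 0 < a x → la y ≤ Real.exp (-(x * y)) / a x)
    (h2 : ∀ x y, 0 < b x → lb y ≤ Real.exp (-(x * y)) / b x) (y : Fin (m + 1) → ℝ) :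
    prodFun la lb y ≤ polar (prodFun a b) y := by
  unfold polar
  have hne : Nonempty {x : Fin (m + 1) → ℝ // 0 < prodFun a b x} := by
    have h : ∀ i : Fin (m + 1), ∃ x, 0 < fam a b i x :=
      fam_forall (P := fun g => ∃ x, 0 < g x) hna hnb
    choose x hx using h
    exact ⟨⟨x, Finset.prod_pos fun i _ => hx i⟩⟩
  refine le_ciInf fun x => ?_
  rw [quot_prod]
  refine Finset.prod_le_prod (fun i _ => fam_forall (P := fun g => ∀ y, 0 ≤ g y) hla hlb i _)
    fun i _ => ?_
  have hpos : 0 < fam a b i (x.1 i) := by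
    have h3 : 0 ≤ fam a b i (x.1 i) := fam_forall (P := fun g => ∀ y, 0 ≤ g y) ha hb i _
    have h4 : prodFun a b x.1 ≠ 0 := x.2.ne'
    have h5 := (Finset.prod_ne_zero_iff.1 h4) i (Finset.mem_univ i)
    exact lt_of_le_of_ne h3 (Ne.symm h5)
  exact fam_forall₂ (P := fun g l => ∀ x y, 0 < g x → l y ≤ Real.exp (-(x * y)) / g x) h1 h2 i _ _ hpos

lemma polar_prod_le {m : ℕ} {a b ua ub : ℝ → ℝ}
    (h1 : ∀ y, ∃ x, 0 < a x ∧ Real.exp (-(x * y)) / a x ≤ ua y)
    (h2 : ∀ y, ∃ x, 0 < b x ∧ Real.exp (-(x * y)) / b x ≤ ub y) (y : Fin (m + 1) → ℝ) :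
    polar (prodFun a b) y ≤ prodFun ua ub y := by
  have h : ∀ i : Fin (m + 1), ∃ x, 0 < fam a b i x ∧
      Real.exp (-(x * y i)) / fam a b i x ≤ fam ua ub i (y i) := fun i =>
    fam_forall₂ (P := fun g l => ∀ y, ∃ x, 0 < g x ∧ Real.exp (-(x * y)) / g x ≤ l y) h1 h2 i (y i)
  choose x hx hx2 using h
  have hpos : 0 < prodFun a b x := Finset.prod_pos fun i _ => hx i
  refine (ciInf_le (bdd _ y) ⟨x, hpos⟩).trans ?_
  rw [quot_prod]
  exact Finset.prod_le_prod (fun i _ => div_nonneg (Real.exp_pos _).le (hx i).le) fun i _ => hx2 i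

lemma gau_polar_ge (x y : ℝ) : gau y ≤ Real.exp (-(x * y)) / gau x := by
  unfold gau
  rw [← Real.exp_sub]
  refine Real.exp_le_exp.2 ?_
  nlinarith [sq_nonneg (x - y)]

lemma gau_polar_le (y : ℝ) : ∃ x, 0 < gau x ∧ Real.exp (-(x * y)) / gau x ≤ gau y := by
  refine ⟨y, gau_pos y, ?_⟩
  unfold gau
  rw [← Real.exp_sub]
  refine Real.exp_le_exp.2 ?_
  nlinarith

/-- the polar of the example, computed exactly -/
lemma polar_example {m : ℕ} {L p d R : ℝ} (h : Par L p d R) :
    polar (prodFun (m := m) (f1 L p d R) gau) = prodFun (lap L) gau := by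
  ext y
  refine le_antisymm ?_ ?_
  · refine polar_prod_le (fun y => ?_) gau_polar_le y
    rcases le_total 0 y with hy | hy
    · refine ⟨L, by rw [f1_L h]; exact one_pos, ?_⟩
      rw [f1_L h, div_one]; unfold lap; rw [abs_of_nonneg hy]
    · refine ⟨-L, by rw [f1_negL h]; exact one_pos, ?_⟩
      rw [f1_negL h, div_one]; unfold lap; rw [abs_of_nonpos hy]
      refine Real.exp_le_exp.2 ?_
      linarith
  · refine le_polar_prod (f1_nonneg L p d R) (fun x => (gau_pos x).le)
      ⟨L, by rw [f1_L h]; exact one_pos⟩ ⟨0, gau_pos 0⟩ (fun y => (Real.exp_pos _).le)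
      (fun x => (gau_pos x).le) (fun x y hx => ?_) (fun x y _ => gau_polar_ge x y) y
    rw [le_div_iff₀ hx]
    have h1 := f1_le_one h x
    obtain ⟨h2, h3⟩ := f1_supp h hx
    have h4 : lap L y ≤ Real.exp (-(x * y)) := by
      unfold lap
      refine Real.exp_le_exp.2 ?_
      have h5 : |x| ≤ L := abs_le.2 ⟨h2, h3⟩
      have h6 : x * y ≤ |x| * |y| := by rw [← abs_mul]; exact le_abs_self _
      have h7 : |x| * |y| ≤ L * |y| := mul_le_mul_of_nonneg_right h5 (abs_nonneg _)
      linarith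
    have h8 : 0 < lap L y := Real.exp_pos _
    calc lap L y * f1 L p d R x ≤ lap L y * 1 := mul_le_mul_of_nonneg_left h1 h8.le
      _ ≤ _ := by rw [mul_one]; exact h4

/-! ### conservation of mass -/

lemma integrable_prod_FK {e s : ℝ} (hs : 0 < s) (L p d R : ℝ) :
    Integrable (fun z : ℝ × ℝ => f1 L p d R z.2 * K e s z.1 z.2) (volume.prod volume) := by
  have hm : Measurable (fun z : ℝ × ℝ => f1 L p d R z.2 * K e s z.1 z.2) :=
    ((measurable_f1 L p d R).comp measurable_snd).mul (continuous_K e s).measurable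
  rw [integrable_prod_iff' hm.aestronglyMeasurable]
  refine ⟨Eventually.of_forall fun u => (integrable_K_x hs e u).const_mul (f1 L p d R u), ?_⟩
  have : (fun u => ∫ x, ‖f1 L p d R u * K e s x u‖) = f1 L p d R := by
    ext u
    have h1 : ∀ x, ‖f1 L p d R u * K e s x u‖ = f1 L p d R u * K e s x u := fun x => by
      rw [Real.norm_eq_abs, abs_of_nonneg (mul_nonneg (f1_nonneg _ _ _ _ _) (K_nonneg _ _ _ _))]
    simp_rw [h1]
    rw [integral_const_mul, int_K_x hs, mul_one]
  simp only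
  rw [this]
  exact integrable_f1 L p d R

lemma integrable_Fx {e s : ℝ} (hs : 0 < s) (L p d R : ℝ) : Integrable (F e s L p d R) :=
  (integrable_prod_FK (e := e) hs L p d R).integral_prod_left

lemma int_Fx {e s L p d R : ℝ} (hs : 0 < s) (h : Par L p d R) :
    ∫ x, F e s L p d R x = M L p d R := by
  unfold F
  rw [integral_integral_swap (integrable_prod_FK (e := e) hs L p d R), ← int_f1 h]
  refine integral_congr_ae (Eventually.of_forall fun u => ?_)
  simp only
  rw [integral_const_mul, int_K_x hs, mul_one]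

lemma F_nonneg (e s L p d R x : ℝ) : 0 ≤ F e s L p d R x :=
  integral_nonneg fun _ => mul_nonneg (f1_nonneg _ _ _ _ _) (K_nonneg _ _ _ _)

lemma mass {m : ℕ} {t L p d R : ℝ} (ht : 0 < t) (h : Par L p d R) :
    ∫⁻ x, ENNReal.ofReal (flow t (prodFun (m := m) (f1 L p d R) gau) x) =
      ENNReal.ofReal (M L p d R * (∫ x, gau x) ^ m) := by
  have hs : 0 < 1 - Real.exp (-2 * t) := by
    have : Real.exp (-2 * t) < 1 := by rw [Real.exp_lt_one_iff]; linarith
    linarith
  rw [flow_example ht, ← ofReal_integral_eq_lintegral_ofReal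
    (integrable_prodFun (integrable_Fx hs L p d R) integrable_gau)
    (Eventually.of_forall (prodFun_nonneg (F_nonneg _ _ _ _ _ _) fun x => (gau_pos x).le)),
    int_prodFun, int_Fx hs h]


lemma centred_example {m : ℕ} {L p d R : ℝ} (hM : 0 < M L p d R) (h : Par L p d R)
    (h1 : ∫ x, f1 L p d R x * x = 0) : Centred (prodFun (m := m) (f1 L p d R) gau) := by
  have i1 : Integrable fun x => x * f1 L p d R x := by
    refine (integrable_f1_mul L p d R continuous_id).congr (Eventually.of_forall fun x => ?_)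
    simp only [id]; ring
  have i2 : ∫ x, x * f1 L p d R x = 0 := by
    rw [← h1]; refine integral_congr_ae (Eventually.of_forall fun x => ?_)
    simp only; ring
  exact centred_prodFun (integrable_f1 L p d R) integrable_gau (by rw [int_f1 h]; exact hM)
    int_gau_pos i1 integrable_mul_gau i2 (int_odd fun x => by unfold gau; congr 1; ring)

lemma centred_polar_example {m : ℕ} {L p d R : ℝ} (h : Par L p d R) :
    Centred (polar (prodFun (m := m) (f1 L p d R) gau)) := by
  rw [polar_example h]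
  exact centred_prodFun (integrable_lap h.L0) integrable_gau (int_lap_pos h.L0)
    int_gau_pos (integrable_mul_lap h.L0) integrable_mul_gau
    (int_odd fun x => by unfold lap; rw [abs_neg])
    (int_odd fun x => by unfold gau; congr 1; ring)

/-- In every dimension `n ≥ 1` there is a function `f`, such that both `f` and its polar have
barycenter zero, but the volume product is not monotone along the Fokker-Planck flow. -/
theorem result (n : ℕ) (hn : 1 ≤ n) : ∃ f : (Fin n → ℝ) → ℝ,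
    Measurable f ∧ (∀ x, 0 ≤ f x) ∧ Centred f ∧ Centred (polar f) ∧
    ∃ t₁ t₂ : ℝ, 0 ≤ t₁ ∧ t₁ < t₂ ∧ volProd (flow t₂ f) < volProd (flow t₁ f) := by
  obtain ⟨m, rfl⟩ : ∃ m, n = m + 1 := ⟨n - 1, by omega⟩
  obtain ⟨L, p, d, R, q, k, hPar, hM, hk, h1, h2, hlt⟩ := oneD
  have hl1 : Real.log (99 / 100) < 0 := Real.log_neg (by norm_num) (by norm_num)
  have hl2 : 0 < Real.log 10 := Real.log_pos (by norm_num)
  have ht1 : 0 < -Real.log (99 / 100) := by linarith
  have ht12 : -Real.log (99 / 100) < Real.log 10 := by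
    rw [← Real.log_inv]
    exact Real.log_lt_log (by norm_num) (by norm_num)
  have e1 : Real.exp (- -Real.log (99 / 100)) = 99 / 100 := by
    rw [neg_neg, Real.exp_log (by norm_num)]
  have e1' : 1 - Real.exp (-2 * -Real.log (99 / 100)) = 1 - (99 / 100) ^ 2 := by
    have : Real.exp (-2 * -Real.log (99 / 100)) = Real.exp (- -Real.log (99 / 100)) ^ 2 := by
      rw [← Real.exp_nat_mul]; push_cast; ring_nf
    rw [this, e1]
  have e2 : Real.exp (-Real.log 10) = 1 / 10 := by
    rw [Real.exp_neg, Real.exp_log (by norm_num)]; norm_num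
  have e2' : 1 - Real.exp (-2 * Real.log 10) = 99 / 100 := by
    have : Real.exp (-2 * Real.log 10) = Real.exp (-Real.log 10) ^ 2 := by
      rw [← Real.exp_nat_mul]; push_cast; ring_nf
    rw [this, e2]; norm_num
  refine ⟨prodFun (f1 L p d R) gau, measurable_prodFun (measurable_f1 L p d R)
    (by unfold gau; fun_prop), prodFun_nonneg (f1_nonneg L p d R) fun x => (gau_pos x).le,
    centred_example hM hPar h1, centred_polar_example hPar,
    -Real.log (99 / 100), Real.log 10, ht1.le, ht12, ?_⟩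
  have hg := int_gau_pos
  unfold volProd
  rw [mass hl2 hPar, mass ht1 hPar]
  have hmass : 0 < M L p d R * (∫ x, gau x) ^ m := by positivity
  refine ENNReal.mul_lt_mul_right (ENNReal.ofReal_pos.2 hmass).ne' ENNReal.ofReal_ne_top ?_
  rw [flow_example ht1, flow_example hl2, e1, e1', e2, e2']
  have p0 := hPar.p0
  have d0 := hPar.d0
  have hs1 : (0:ℝ) < 1 - (99 / 100) ^ 2 := by norm_num
  -- upper bound at the later time
  have hup : ∫⁻ y, ENNReal.ofReal (polar (prodFun (m := m) (F (1 / 10) (99 / 100) L p d R) gau) y) ≤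
      ENNReal.ofReal ((∫ y, upp (1 / 10) (99 / 100) L p q k (M L p d R) y) * (∫ x, gau x) ^ m) := by
    rw [← int_prodFun, ofReal_integral_eq_lintegral_ofReal
      (integrable_prodFun (integrable_upp (by norm_num) (by norm_num) hPar.L0) integrable_gau)
      (Eventually.of_forall (prodFun_nonneg (upp_nonneg hM p0) fun x => (gau_pos x).le))]
    refine lintegral_mono fun y => ENNReal.ofReal_le_ofReal ?_
    exact polar_prod_le (polar_le_upp hPar (by norm_num) hM h1 h2) gau_polar_le y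
  -- lower bound at the earlier time
  have hlow : ENNReal.ofReal ((∫ y, low (99 / 100) (1 - (99 / 100) ^ 2) L p d y) *
      (∫ x, gau x) ^ m) ≤ ∫⁻ y, ENNReal.ofReal
        (polar (prodFun (m := m) (F (99 / 100) (1 - (99 / 100) ^ 2) L p d R) gau) y) := by
    rw [← int_prodFun, ofReal_integral_eq_lintegral_ofReal
      (integrable_prodFun (integrable_low (by norm_num) hs1 p0 d0) integrable_gau)
      (Eventually.of_forall (prodFun_nonneg (low_nonneg (by norm_num) p0 d0)
        fun x => (gau_pos x).le))]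
    refine lintegral_mono fun y => ENNReal.ofReal_le_ofReal ?_
    refine le_polar_prod (F_nonneg _ _ _ _ _ _) (fun x => (gau_pos x).le) ?_ ⟨0, gau_pos 0⟩
      (low_nonneg (by norm_num) p0 d0) (fun x => (gau_pos x).le)
      (fun x y hx => low_le_polar hPar (by norm_num) (by norm_num) hs1 (by norm_num) x y hx)
      (fun x y _ => gau_polar_ge x y) y
    exact ⟨_, lt_of_lt_of_le (by positivity) (lower_far (e := 99 / 100) hPar hs1)⟩
  refine lt_of_le_of_lt hup (lt_of_lt_of_le ?_ hlow)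
  have hpos : 0 < (∫ y, low (99 / 100) (1 - (99 / 100) ^ 2) L p d y) * (∫ x, gau x) ^ m := by
    have h5 : 0 ≤ ∫ y, upp (1 / 10) (99 / 100) L p q k (M L p d R) y :=
      integral_nonneg fun y => upp_nonneg hM p0 y
    have h6 : 0 < ∫ y, low (99 / 100) (1 - (99 / 100) ^ 2) L p d y := lt_of_le_of_lt h5 hlt
    positivity
  exact (ENNReal.ofReal_lt_ofReal_iff hpos).2 (mul_lt_mul_of_pos_right hlt (by positivity))

end Pool.Agent.Results.MP_31abd3_an.NonMonotone
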